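import Mathlib

/-!
# Low-diameter orderings: a first lower bound on the function `D`

Every ordering of the Hamming graph `H(k, m)` with `k < m` has an increasing path which changes each
of the `k` coordinates exactly once, so its two ends are at distance `k`.  Hence `D n ≥ k` as soon as
`(k + 1) ^ k ≤ n`, and `D n ≥ (1 - o(1)) log n / log log n`.
-/

namespace Pool.Agent.Results.MP_4a087e_lc.LowerBound

open Filter

/-- `l` lists the vertices of a path of `G` along which `π` increases strictly. -/
def IsIncreasingPath {V : Type*} (G : SimpleGraph V) (π : V → ℝ) (l : List V) : Prop :=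
  l.IsChain (fun a b => G.Adj a b ∧ π a < π b)

/-- `π` is a `d`-diameter ordering of `G`: it is injective, and any two vertices of a
`π`-increasing path are at distance at most `d` in `G`. -/
def IsDiameterOrdering {V : Type*} (G : SimpleGraph V) (d : ℕ) (π : V → ℝ) : Prop :=
  Function.Injective π ∧
    ∀ l : List V, IsIncreasingPath G π l → ∀ u ∈ l, ∀ w ∈ l, G.edist u w ≤ (d : ℕ∞)

/-- The least `d` such that every graph on `n` vertices has a `d`-diameter ordering. -/
noncomputable def D (n : ℕ) : ℕ :=
  sInf {d : ℕ | ∀ G : SimpleGraph (Fin n), ∃ π : Fin n → ℝ, IsDiameterOrdering G d π}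

/-! ### Paths in the Hamming graph -/

section Hamming

variable {k m : ℕ}

/-- One step of an increasing path of the Hamming graph. -/
def Step (τ : (Fin k → Fin m) → ℝ) (a b : Fin k → Fin m) : Prop :=
  hammingDist a b = 1 ∧ τ a < τ b

/-- `y` is the end of an increasing path that has changed exactly the first `j` coordinates. -/
def Good (τ : (Fin k → Fin m) → ℝ) (j : ℕ) (y : Fin k → Fin m) : Prop :=
  ∃ x : Fin k → Fin m, Relation.ReflTransGen (Step τ) x y ∧
    ∀ i : Fin k, ((i : ℕ) < j → x i ≠ y i) ∧ (j ≤ (i : ℕ) → x i = y i)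

theorem hammingDist_eq_one {y y' : Fin k → Fin m} (j : Fin k) (hne : y ≠ y')
    (h : ∀ i, i ≠ j → y i = y' i) : hammingDist y y' = 1 := by
  have hj : y j ≠ y' j := by
    intro hj
    apply hne
    funext i
    by_cases hi : i = j
    · subst hi; exact hj
    · exact h i hi
  unfold hammingDist
  rw [Finset.card_eq_one]
  refine ⟨j, ?_⟩
  ext i
  simp only [Finset.mem_filter, Finset.mem_univ, true_and, Finset.mem_singleton]
  constructor
  · intro hi
    by_contra hij
    exact hi (h i hij)
  · rintro rfl
    exact hj

theorem good_step (τ : (Fin k → Fin m) → ℝ) (j : Fin k) {y y' : Fin k → Fin m}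
    (hy : Good τ (j : ℕ) y) (h : ∀ i, i ≠ j → y i = y' i) (hlt : τ y < τ y') :
    Good τ ((j : ℕ) + 1) y' := by
  have hne : y ≠ y' := by
    rintro rfl
    exact lt_irrefl _ hlt
  have hj : y j ≠ y' j := by
    intro hj
    apply hne
    funext i
    by_cases hi : i = j
    · subst hi; exact hj
    · exact h i hi
  obtain ⟨x, hx, hxi⟩ := hy
  refine ⟨x, hx.tail ⟨hammingDist_eq_one j hne h, hlt⟩, ?_⟩
  intro i
  constructor
  · intro hi
    by_cases hij : i = j
    · subst hij
      rw [(hxi i).2 le_rfl]
      exact hj
    · have hlt' : (i : ℕ) < (j : ℕ) := by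
        have h1 : (i : ℕ) ≠ (j : ℕ) := fun h2 => hij (Fin.ext h2)
        omega
      rw [← h i hij]
      exact (hxi i).1 hlt'
  · intro hi
    have hij : i ≠ j := by
      rintro rfl
      omega
    rw [← h i hij]
    exact (hxi i).2 (by omega)

open Classical in
theorem card_good (τ : (Fin k → Fin m) → ℝ) (hτ : Function.Injective τ) :
    ∀ j : ℕ, j ≤ k →
      m ^ k ≤ (Finset.univ.filter (fun y : Fin k → Fin m => Good τ j y)).card
        + j * m ^ (k - 1) := by
  intro j
  induction j with
  | zero =>
    intro _
    have h0 : (Finset.univ.filter (fun y : Fin k → Fin m => Good τ 0 y)) = Finset.univ := by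
      apply Finset.filter_true_of_mem
      intro y _
      exact ⟨y, Relation.ReflTransGen.refl, fun i => ⟨fun h => absurd h (Nat.not_lt_zero _),
        fun _ => rfl⟩⟩
    rw [h0]
    simp
  | succ j ih =>
    intro hj
    have hjk : j < k := hj
    have ih' := ih (le_of_lt hjk)
    set J : Fin k := ⟨j, hjk⟩ with hJ
    set S := Finset.univ.filter (fun y : Fin k → Fin m => Good τ j y) with hS
    set S' := Finset.univ.filter (fun y : Fin k → Fin m => Good τ (j + 1) y) with hS'
    have hdiff : (S \ S').card ≤ m ^ (k - 1) := by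
      have hcard : Fintype.card ({i : Fin k // i ≠ J} → Fin m) = m ^ (k - 1) := by
        simp [Fintype.card_subtype_compl]
      rw [← hcard, ← Finset.card_univ]
      apply Finset.card_le_card_of_injOn
        (fun (y : Fin k → Fin m) (i : {i : Fin k // i ≠ J}) => y i.1)
      · intro y _
        simp
      · intro y hy y' hy' hyy'
        simp only [Finset.coe_sdiff, Set.mem_sdiff, Finset.mem_coe] at hy hy'
        have hagree : ∀ i, i ≠ J → y i = y' i := by
          intro i hi
          have := congrFun hyy' ⟨i, hi⟩
          simpa using this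
        by_contra hne
        have hτne : τ y ≠ τ y' := fun h => hne (hτ h)
        rcases lt_or_gt_of_ne hτne with hlt | hgt
        · apply hy'.2
          rw [hS', Finset.mem_filter]
          refine ⟨Finset.mem_univ _, ?_⟩
          have hyg : Good τ (J : ℕ) y := (Finset.mem_filter.mp hy.1).2
          exact good_step τ J hyg hagree hlt
        · apply hy.2
          rw [hS', Finset.mem_filter]
          refine ⟨Finset.mem_univ _, ?_⟩
          have hyg : Good τ (J : ℕ) y' := (Finset.mem_filter.mp hy'.1).2
          exact good_step τ J hyg (fun i hi => (hagree i hi).symm) hgt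
    have hsub : S.card ≤ S'.card + (S \ S').card := by
      have h1 : S ⊆ S' ∪ (S \ S') := by
        intro y hy
        by_cases h : y ∈ S'
        · exact Finset.mem_union_left _ h
        · exact Finset.mem_union_right _ (Finset.mem_sdiff.mpr ⟨hy, h⟩)
      exact (Finset.card_le_card h1).trans (Finset.card_union_le _ _)
    calc m ^ k ≤ S.card + j * m ^ (k - 1) := ih'
      _ ≤ (S'.card + m ^ (k - 1)) + j * m ^ (k - 1) := by omega
      _ = S'.card + (j + 1) * m ^ (k - 1) := by ring

/-- Every ordering of the Hamming graph `H(k, m)`, `k < m`, has an increasing path whose ends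
differ in all `k` coordinates. -/
theorem exists_long (τ : (Fin k → Fin m) → ℝ) (hτ : Function.Injective τ) (hkm : k < m) :
    ∃ x y : Fin k → Fin m, Relation.ReflTransGen (Step τ) x y ∧ hammingDist x y = k := by
  classical
  have hc := card_good τ hτ k le_rfl
  have hpos : k * m ^ (k - 1) < m ^ k := by
    rcases Nat.eq_zero_or_pos k with rfl | hk
    · simp
    · have h1 : m ^ k = m * m ^ (k - 1) := by
        rw [← pow_succ']
        congr 1
        omega
      rw [h1]
      exact Nat.mul_lt_mul_of_pos_right hkm (pow_pos (by omega) _)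
  have hne : 0 < (Finset.univ.filter (fun y : Fin k → Fin m => Good τ k y)).card := by omega
  obtain ⟨y, hy⟩ := Finset.card_pos.mp hne
  obtain ⟨x, hx, hxi⟩ := (Finset.mem_filter.mp hy).2
  refine ⟨x, y, hx, ?_⟩
  unfold hammingDist
  have : (Finset.univ.filter (fun i : Fin k => x i ≠ y i)) = Finset.univ := by
    apply Finset.filter_true_of_mem
    intro i _
    exact (hxi i).1 i.2
  rw [this]
  simp

end Hamming

/-! ### The graph on `n` vertices -/

/-- The pull-back of the Hamming graph along `f`. -/
def pull {n k m : ℕ} (f : Fin n → (Fin k → Fin m)) : SimpleGraph (Fin n) where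
  Adj a b := hammingDist (f a) (f b) = 1
  symm := ⟨fun a b h => by rw [hammingDist_comm]; exact h⟩
  loopless := ⟨fun a h => by simp at h⟩

theorem walk_length {n k m : ℕ} (f : Fin n → (Fin k → Fin m)) {a b : Fin n}
    (p : (pull f).Walk a b) : hammingDist (f a) (f b) ≤ p.length := by
  induction p with
  | nil => simp
  | @cons u v w h p ih =>
    have h1 : hammingDist (f u) (f v) = 1 := h
    have h2 := hammingDist_triangle (f u) (f v) (f w)
    simp only [SimpleGraph.Walk.length_cons]
    omega

theorem le_edist {n k m : ℕ} (f : Fin n → (Fin k → Fin m)) (a b : Fin n) :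
    ((hammingDist (f a) (f b) : ℕ) : ℕ∞) ≤ (pull f).edist a b := by
  unfold SimpleGraph.edist
  apply le_iInf
  intro p
  exact_mod_cast walk_length f p

theorem no_ordering {n k d : ℕ} (hn : (k + 1) ^ k ≤ n) (hd : d < k) :
    ∃ G : SimpleGraph (Fin n), ∀ π : Fin n → ℝ, ¬ IsDiameterOrdering G d π := by
  classical
  have hcard : Fintype.card (Fin k → Fin (k + 1)) ≤ Fintype.card (Fin n) := by
    simpa using hn
  obtain ⟨e⟩ := Function.Embedding.nonempty_of_card_le hcard
  set f : Fin n → (Fin k → Fin (k + 1)) := Function.invFun e with hf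
  have hfe : ∀ v, f (e v) = v := Function.leftInverse_invFun e.injective
  refine ⟨pull f, ?_⟩
  rintro π ⟨hπ, hdiam⟩
  obtain ⟨x, y, hxy, hdist⟩ := exists_long (fun v => π (e v))
    (fun a b h => e.injective (hπ h)) (Nat.lt_succ_self k)
  have hlift : Relation.ReflTransGen (fun a b => (pull f).Adj a b ∧ π a < π b) (e x) (e y) := by
    refine Relation.ReflTransGen.lift e ?_ _ _ hxy
    intro a b hab
    refine ⟨?_, hab.2⟩
    show hammingDist (f (e a)) (f (e b)) = 1
    rw [hfe, hfe]
    exact hab.1
  obtain ⟨l, hl, hlast⟩ := List.exists_isChain_cons_of_relationReflTransGen hlift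
  have h1 := hdiam (e x :: l) hl (e x) (by simp) (e y) (by
    rw [← hlast]
    exact List.getLast_mem _)
  have h2 := le_edist f (e x) (e y)
  rw [hfe, hfe, hdist] at h2
  have h3 : (k : ℕ∞) ≤ (d : ℕ∞) := h2.trans h1
  have h4 : k ≤ d := by exact_mod_cast h3
  omega

/-- The set defining `D n` is nonempty. -/
theorem nonempty (n : ℕ) :
    {d : ℕ | ∀ G : SimpleGraph (Fin n), ∃ π : Fin n → ℝ, IsDiameterOrdering G d π}.Nonempty := by
  classical
  refine ⟨n, ?_⟩
  intro G
  refine ⟨fun i => (i : ℕ), ?_, ?_⟩
  · intro a b h
    have h' : ((a : ℕ) : ℝ) = ((b : ℕ) : ℝ) := h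
    exact Fin.ext (by exact_mod_cast h')
  · intro l hl u hu w hw
    have hreach : G.Reachable u w := by
      have key : ∀ (l : List (Fin n)), l.IsChain (fun a b => G.Adj a b) →
          ∀ u ∈ l, ∀ w ∈ l, G.Reachable u w := by
        intro l
        induction l with
        | nil => intro _ u hu; simp at hu
        | cons a l ih =>
          intro hl u hu w hw
          have hhead : ∀ v ∈ l, G.Reachable a v := by
            intro v hv
            cases l with
            | nil => simp at hv
            | cons b l' =>
              rw [List.isChain_cons_cons] at hl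
              exact (SimpleGraph.Adj.reachable hl.1).trans (ih hl.2 b (by simp) v hv)
          have htail : l.IsChain (fun a b => G.Adj a b) := hl.tail
          rcases List.mem_cons.mp hu with rfl | hu'
          · rcases List.mem_cons.mp hw with rfl | hw'
            · exact SimpleGraph.Reachable.refl _
            · exact hhead w hw'
          · rcases List.mem_cons.mp hw with rfl | hw'
            · exact (hhead u hu').symm
            · exact ih htail u hu' w hw'
      exact key l (hl.imp (fun a b h => h.1)) u hu w hw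
    obtain ⟨p, hp⟩ := hreach.exists_isPath
    have hlen : p.length < Fintype.card (Fin n) := hp.length_lt
    rw [Fintype.card_fin] at hlen
    refine (SimpleGraph.edist_le p).trans ?_
    exact_mod_cast hlen.le

theorem le_D {k n : ℕ} (hn : (k + 1) ^ k ≤ n) : k ≤ D n := by
  unfold D
  apply le_csInf (nonempty n)
  intro d hd
  by_contra hlt
  push Not at hlt
  obtain ⟨G, hG⟩ := no_ordering hn hlt
  obtain ⟨π, hπ⟩ := hd G
  exact hG π hπ

/-- **Lower bound for low-diameter orderings.**  `D n ≥ k` whenever `n ≥ (k + 1) ^ k`; in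
particular `D n ≥ c log n / log log n` for every `c < 1` and all large `n`. -/
theorem result :
    (∀ k n : ℕ, (k + 1) ^ k ≤ n → k ≤ D n) ∧
    (∀ c : ℝ, c < 1 → ∀ᶠ n : ℕ in atTop, c * (Real.log n / Real.log (Real.log n)) ≤ (D n : ℝ)) := by
  refine ⟨fun k n h => le_D h, ?_⟩
  intro c hc
  -- reduce to `0 < c`
  wlog hc0 : 0 < c generalizing c with H
  · have h1 := H (1 / 2) (by norm_num) (by norm_num)
    have hL : Tendsto (fun n : ℕ => Real.log (n : ℝ)) atTop atTop :=
      Real.tendsto_log_atTop.comp tendsto_natCast_atTop_atTop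
    filter_upwards [h1, hL.eventually_ge_atTop (Real.exp 1)] with n hn hLn
    refine le_trans ?_ hn
    push Not at hc0
    have hpos : 0 ≤ Real.log n / Real.log (Real.log n) := by
      apply div_nonneg
      · exact (Real.exp_pos 1).le.trans hLn
      · apply Real.log_nonneg
        exact (Real.one_le_exp (by norm_num)).trans hLn
    nlinarith
  have hL : Tendsto (fun n : ℕ => Real.log (n : ℝ)) atTop atTop :=
    Real.tendsto_log_atTop.comp tendsto_natCast_atTop_atTop
  -- eventual inequalities in `L = log n`
  have hlog : ∀ᶠ L : ℝ in atTop, Real.exp 1 ≤ L ∧ c * L + 2 ≤ L ∧ c * L + 1 * Real.log L ≤ L := by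
    have h1 : ∀ᶠ L : ℝ in atTop, Real.exp 1 ≤ L := eventually_ge_atTop _
    have h2 : ∀ᶠ L : ℝ in atTop, 2 / (1 - c) ≤ L := eventually_ge_atTop _
    have h3 : ∀ᶠ L : ℝ in atTop, Real.log L ≤ (1 - c) * L := by
      have := (Real.isLittleO_log_id_atTop).bound (show (0 : ℝ) < 1 - c by linarith)
      filter_upwards [this, eventually_ge_atTop (1 : ℝ)] with L hL1 hL2
      rw [Real.norm_eq_abs, Real.norm_eq_abs, abs_of_nonneg (Real.log_nonneg hL2), id,
        abs_of_nonneg (by linarith)] at hL1
      exact hL1
    filter_upwards [h1, h2, h3] with L a b d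
    refine ⟨a, ?_, by linarith⟩
    have : 2 ≤ L * (1 - c) := (div_le_iff₀ (by linarith)).mp b
    linarith
  filter_upwards [hL.eventually hlog, eventually_ge_atTop 1] with n hn hn1
  obtain ⟨he, h2, h3⟩ := hn
  set L := Real.log (n : ℝ) with hLdef
  have hLpos : 0 < L := lt_of_lt_of_le (Real.exp_pos 1) he
  have hl1 : 1 ≤ Real.log L := by
    rw [← Real.log_exp 1]
    exact Real.log_le_log (Real.exp_pos 1) he
  have hlpos : 0 < Real.log L := by linarith
  set q := c * (L / Real.log L) with hq
  have hq0 : 0 ≤ q := by positivity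
  set k := ⌈q⌉₊ with hk
  have hkq : q ≤ k := Nat.le_ceil q
  have hk1 : (k : ℝ) < q + 1 := Nat.ceil_lt_add_one hq0
  refine hkq.trans ?_
  have hmain : k ≤ D n := by
    apply le_D
    -- `(k+1)^k ≤ n`
    have hqL : q ≤ c * L := by
      rw [hq]
      apply mul_le_mul_of_nonneg_left _ hc0.le
      exact div_le_self hLpos.le hl1
    have hk2 : ((k : ℝ) + 1) ≤ L := by linarith
    have hkpos : (0 : ℝ) < (k : ℝ) + 1 := by positivity
    have hlogk : Real.log ((k : ℝ) + 1) ≤ Real.log L := Real.log_le_log hkpos hk2
    have hprod : (k : ℝ) * Real.log ((k : ℝ) + 1) ≤ L := by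
      have hk0 : (0 : ℝ) ≤ k := Nat.cast_nonneg k
      calc (k : ℝ) * Real.log ((k : ℝ) + 1) ≤ (k : ℝ) * Real.log L :=
            mul_le_mul_of_nonneg_left hlogk hk0
        _ ≤ (q + 1) * Real.log L := mul_le_mul_of_nonneg_right hk1.le hlpos.le
        _ = c * L + 1 * Real.log L := by
            rw [hq]
            field_simp
        _ ≤ L := h3
    have hcast : (((k + 1) ^ k : ℕ) : ℝ) ≤ (n : ℝ) := by
      have hnpos : (0 : ℝ) < n := by exact_mod_cast hn1
      push_cast
      rw [← Real.log_le_log_iff (by positivity) hnpos, Real.log_pow]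
      exact hprod
    exact_mod_cast hcast
  exact_mod_cast hmain

end Pool.Agent.Results.MP_4a087e_lc.LowerBound
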